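import Pool.Agent.PJC.Stmts

/-!
# Squad PJC, row HCV (helper59)
-/

set_option autoImplicit false

namespace Pool.Agent.PJC.H59

/-- the convex function -/
noncomputable def Hf (r0 y : ℝ) : ℝ := (max (|y| - 1 + r0) 0) ^ 2

/-- its derivative -/
noncomputable def dH (r0 y : ℝ) : ℝ :=
  if 0 ≤ y then 2 * max (y - 1 + r0) 0 else -(2 * max (-y - 1 + r0) 0)

theorem rem_pos (r0 y w : ℝ) (hy : 0 ≤ y) :
    0 ≤ Hf r0 (y + w) - Hf r0 y - 2 * max (y - 1 + r0) 0 * w ∧
    (0 < r0 → 1 - r0 / 2 ≤ y →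
      min (w ^ 2) (r0 / 2 * |w|) ≤ Hf r0 (y + w) - Hf r0 y - 2 * max (y - 1 + r0) 0 * w) := by
  unfold Hf
  rw [abs_of_nonneg hy]
  set q := max (|y + w| - 1 + r0) 0 with hq
  have hq0 : 0 ≤ q := le_max_right _ _
  have hq1 : y + w - 1 + r0 ≤ q := by
    have h1 : |y + w| - 1 + r0 ≤ q := le_max_left _ _
    have h2 := le_abs_self (y + w)
    linarith
  rcases le_or_gt (y - 1 + r0) 0 with hc | hc
  · rw [max_eq_right hc]
    constructor
    · nlinarith [sq_nonneg q]
    · intro h1 h2
      exfalso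
      linarith
  · rw [max_eq_left hc.le]
    set p := y - 1 + r0 with hp
    by_cases hpw : 0 ≤ p + w
    · have h1 : (p + w) ^ 2 ≤ q ^ 2 := by
        apply pow_le_pow_left₀ hpw
        linarith
      have h2 : w ^ 2 ≤ q ^ 2 - p ^ 2 - 2 * p * w := by nlinarith
      exact ⟨(sq_nonneg w).trans h2, fun _ _ => (min_le_left _ _).trans h2⟩
    · push Not at hpw
      have hw : w < 0 := by linarith
      have h1 : p * (-w) ≤ q ^ 2 - p ^ 2 - 2 * p * w := by nlinarith [sq_nonneg q]
      constructor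
      · nlinarith
      · intro hr0 hy1
        refine (min_le_right _ _).trans ?_
        rw [abs_of_neg hw]
        refine le_trans ?_ h1
        apply mul_le_mul_of_nonneg_right _ (by linarith)
        linarith

theorem rem (r0 y w : ℝ) :
    0 ≤ Hf r0 (y + w) - Hf r0 y - dH r0 y * w ∧
    (0 < r0 → 1 - r0 / 2 ≤ |y| →
      min (w ^ 2) (r0 / 2 * |w|) ≤ Hf r0 (y + w) - Hf r0 y - dH r0 y * w) := by
  by_cases hy : 0 ≤ y
  · have h := rem_pos r0 y w hy
    rw [dH, if_pos hy, abs_of_nonneg hy]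
    exact h
  · have hy' : y < 0 := not_le.1 hy
    have h := rem_pos r0 (-y) (-w) (by linarith)
    rw [dH, if_neg hy, abs_of_neg hy']
    have e1 : Hf r0 (-y + -w) = Hf r0 (y + w) := by
      unfold Hf
      rw [show -y + -w = -(y + w) by ring, abs_neg]
    have e2 : Hf r0 (-y) = Hf r0 y := by
      unfold Hf
      rw [abs_neg]
    rw [e1, e2, abs_neg, neg_sq] at h
    have e3 : 2 * max (-y - 1 + r0) 0 * -w = -(2 * max (-y - 1 + r0) 0) * w := by ring
    rw [e3] at h
    exact h

theorem dH_y (r0 y : ℝ) (h0 : 0 ≤ r0) (hy : |y| ≤ 1) : 0 ≤ dH r0 y * y ∧ dH r0 y * y ≤ 2 * r0 := by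
  have hy' := abs_le.1 hy
  unfold dH
  split_ifs with h
  · have h1 : max (y - 1 + r0) 0 ≤ r0 := max_le (by linarith) h0
    have h2 : 0 ≤ max (y - 1 + r0) 0 := le_max_right _ _
    constructor
    · positivity
    · nlinarith
  · push Not at h
    have h1 : max (-y - 1 + r0) 0 ≤ r0 := max_le (by linarith) h0
    have h2 : 0 ≤ max (-y - 1 + r0) 0 := le_max_right _ _
    constructor
    · nlinarith
    · nlinarith

theorem Hf_le (r0 y : ℝ) (h0 : 0 ≤ r0) (h1 : r0 ≤ 1) (hy : |y| ≤ 1) : |Hf r0 y| ≤ 1 := by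
  have h2 : max (|y| - 1 + r0) 0 ≤ r0 := max_le (by linarith) h0
  have h3 : 0 ≤ max (|y| - 1 + r0) 0 := le_max_right _ _
  unfold Hf
  rw [abs_of_nonneg (sq_nonneg _)]
  nlinarith

/-- the rate is at most the budget -/
theorem e_le {n : ℕ} {s : Side n} {S : Set (Eu n)} {ε d : ℝ} (h : s.Good S ε d) (hε : ε < 1)
    (a : s.A) : s.e a ≤ ε := by
  have h1 := h.bud a
  have h2 := h.k1 a
  have h3 := h.k0 a
  have h4 := h.e0 a
  have h5 : 0 ≤ ∑ i, s.w a i * (1 + inner ℝ (s.t' a i) (s.v a i)) := by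
    apply Finset.sum_nonneg
    intro i _
    apply mul_nonneg (h.w0 a i)
    have := (abs_le.1 (h.pol _ (h.tS' a i) a i)).1
    linarith
  set T := ∑ i, s.w a i * (1 + inner ℝ (s.t' a i) (s.v a i)) with hT
  have h6 : s.k a + (1 - s.k a) * s.e a ≤ ε := by nlinarith
  by_contra hcon
  push Not at hcon
  by_cases he : s.e a ≤ 1
  · nlinarith
  · push Not at he
    nlinarith

theorem hcv (hSec : SecStmt) : HcvStmt := by
  intro n s r S R η d u hn hη hη1 hd0 hd hs hr hx hu hu1 hy2
  have hnpos : (0 : ℝ) < n := by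
    have : 0 < n := by omega
    exact_mod_cast this
  have hn4 : (4 : ℝ) ≤ n := by exact_mod_cast hn
  have hsn : 0 < √(n : ℝ) := Real.sqrt_pos.2 hnpos
  have hu0 : 0 < u := hη.trans_le hu
  have hr0 : 0 < u ^ 2 := by positivity
  have hr01 : u ^ 2 ≤ 1 := by nlinarith
  have hsw := hs.wt
  have hrw := hr.wt
  set ε : ℝ := (2 + η ^ 4) / n with hε
  have hη4 : η ^ 4 ≤ 1 / 10000 := by
    calc η ^ 4 ≤ (1 / 10) ^ 4 := pow_le_pow_left₀ hη.le hη1 4
      _ = 1 / 10000 := by norm_num
  have hε1 : ε < 1 := by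
    rw [hε, div_lt_one hnpos]
    linarith
  obtain ⟨hX2, -, -⟩ := hSec n s r S R η d 0 hn hη hη1 hd0 hd hs hr hx le_rfl zero_le_one
  -- the values
  have hyb : ∀ x ∈ S, ∀ b, |inner ℝ x (r.t b) / √(n : ℝ)| ≤ 1 := by
    intro x hxS b
    rw [abs_div, abs_of_pos hsn, div_le_one hsn]
    exact hx.st x hxS _ (hr.tS b)
  have hy' : ∀ a i b, inner ℝ (s.t' a i) (r.t b) / √(n : ℝ) =
      yy s r a b + -2 * XX s r a i b := by
    intro a i b
    unfold yy XX Side.V
    rw [inner_smul_left, inner_sub_left]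
    simp only [conj_trivial]
    ring
  set Rm : s.A → s.I → r.A → ℝ := fun a i b =>
    Hf (u ^ 2) (yy s r a b + -2 * XX s r a i b) - Hf (u ^ 2) (yy s r a b) -
      dH (u ^ 2) (yy s r a b) * (-2 * XX s r a i b) with hRm
  -- the average of the remainder
  have hRmb : ∀ b, s.ex (fun a i => Rm a i b) ≤ d + 2 * u ^ 2 * ε := by
    intro b
    have h1 := hs.stat (fun x => Hf (u ^ 2) (inner ℝ x (r.t b) / √(n : ℝ)))
      (fun x hxS => Hf_le _ _ hr0.le hr01 (hyb x hxS b))
    have h2 := (abs_le.1 h1).2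
    have h3 : s.ex (fun a i => Rm a i b) =
        ∑ a, s.μ a * (∑ i, s.w a i * Hf (u ^ 2) (inner ℝ (s.t' a i) (r.t b) / √(n : ℝ)) -
          Hf (u ^ 2) (inner ℝ (s.t a) (r.t b) / √(n : ℝ))) +
        ∑ a, s.μ a * (s.e a * (dH (u ^ 2) (yy s r a b) * yy s r a b)) := by
      unfold Side.ex
      rw [← Finset.sum_add_distrib]
      apply Finset.sum_congr rfl
      intro a _
      rw [← mul_add]
      congr 1
      have h4 : ∑ i, s.w a i * (-2 * XX s r a i b) = -(s.e a * yy s r a b) := by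
        have h5 : ∑ i, s.w a i * (inner ℝ (s.t' a i) (r.t b) / √(n : ℝ)) =
            (1 - s.e a) * yy s r a b := by
          have h6 := congrArg (fun x : Eu n => inner ℝ x (r.t b)) (hs.mean a)
          simp only [sum_inner, inner_smul_left, conj_trivial] at h6
          unfold yy
          rw [← mul_div_assoc, ← h6, Finset.sum_div]
          apply Finset.sum_congr rfl
          intro i _
          rw [mul_div_assoc]
        simp only [hy', mul_add, Finset.sum_add_distrib] at h5
        rw [← Finset.sum_mul, hs.w1, one_mul] at h5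
        linarith
      have h7 : ∑ i, s.w a i * Rm a i b =
          ∑ i, s.w a i * Hf (u ^ 2) (yy s r a b + -2 * XX s r a i b) -
            (∑ i, s.w a i) * Hf (u ^ 2) (yy s r a b) -
            dH (u ^ 2) (yy s r a b) * ∑ i, s.w a i * (-2 * XX s r a i b) := by
        rw [Finset.sum_mul, Finset.mul_sum, ← Finset.sum_sub_distrib, ← Finset.sum_sub_distrib]
        apply Finset.sum_congr rfl
        intro i _
        simp only [hRm]
        ring
      rw [h7, h4, hs.w1]
      simp only [hy']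
      unfold yy
      ring
    rw [h3]
    have h8 : ∑ a, s.μ a * (s.e a * (dH (u ^ 2) (yy s r a b) * yy s r a b)) ≤
        2 * u ^ 2 * ε := by
      calc ∑ a, s.μ a * (s.e a * (dH (u ^ 2) (yy s r a b) * yy s r a b)) ≤
          ∑ a, s.μ a * (2 * u ^ 2 * ε) := by
            apply Finset.sum_le_sum
            intro a _
            apply mul_le_mul_of_nonneg_left _ (hs.mu0 a)
            have h9 := dH_y (u ^ 2) (yy s r a b) hr0.le (hyb _ (hs.tS a) b)
            have h10 := e_le hs hε1 a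
            have h11 := hs.e0 a
            calc s.e a * (dH (u ^ 2) (yy s r a b) * yy s r a b) ≤ ε * (2 * u ^ 2) :=
                  mul_le_mul h10 h9.2 h9.1 (h11.trans h10)
              _ = 2 * u ^ 2 * ε := by ring
        _ = 2 * u ^ 2 * ε := by rw [← Finset.sum_mul, hs.mu1, one_mul]
    linarith
  have hRmE : ex2 s r (fun a i b _ => Rm a i b) ≤ 5 * u ^ 2 / n := by
    rw [ex2_comm]
    have h1 : (r.ex fun b _ => s.ex fun a i => Rm a i b) ≤ r.ex fun _ _ => d + 2 * u ^ 2 * ε :=
      r.ex_mono hrw fun b _ => hRmb b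
    rw [r.ex_const hrw] at h1
    refine h1.trans ?_
    have h2 : d ≤ u ^ 2 / 100 / n := by
      refine hd.trans ?_
      rw [div_le_div_iff₀ (by positivity) hnpos]
      have h3 : η ^ 2 ≤ u ^ 2 := pow_le_pow_left₀ hη.le hu 2
      have h4 : η ^ 2 ≤ 1 / 100 := by
        calc η ^ 2 ≤ (1 / 10) ^ 2 := pow_le_pow_left₀ hη.le hη1 2
          _ = 1 / 100 := by norm_num
      have h5 : η ^ 4 ≤ u ^ 2 / 100 := by
        have : η ^ 4 = η ^ 2 * η ^ 2 := by ring
        rw [this]
        nlinarith [sq_nonneg η]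
      have h6 : (n : ℝ) ≤ (n : ℝ) ^ 3 := by
        have : (1 : ℝ) ≤ n := by linarith
        exact le_self_pow₀ this (by norm_num)
      have h7 : 0 ≤ η ^ 4 := by positivity
      calc η ^ 4 * (n : ℝ) ≤ u ^ 2 / 100 * (n : ℝ) := mul_le_mul_of_nonneg_right h5 hnpos.le
        _ ≤ u ^ 2 / 100 * (n : ℝ) ^ 3 := mul_le_mul_of_nonneg_left h6 (by positivity)
    have h3 : 2 * u ^ 2 * ε ≤ (4.1 * u ^ 2) / n := by
      rw [hε, ← mul_div_assoc]
      apply div_le_div_of_nonneg_right _ hnpos.le
      nlinarith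
    have h4 : u ^ 2 / 100 / n + 4.1 * u ^ 2 / n ≤ 5 * u ^ 2 / n := by
      rw [← add_div]
      apply div_le_div_of_nonneg_right _ hnpos.le
      nlinarith
    linarith
  -- splitting
  set ind : s.A → r.A → ℝ := fun a b => if 1 - u ^ 2 / 2 ≤ |yy s r a b| then 1 else 0 with hind
  have hind01 : ∀ a b, ind a b = 1 ∨ ind a b = 0 := by
    intro a b
    simp only [hind]
    split_ifs
    · exact Or.inl rfl
    · exact Or.inr rfl
  set m : s.A → s.I → r.A → ℝ := fun a i b =>
    ind a b * min ((-2 * XX s r a i b) ^ 2) (u ^ 2 / 2 * |-2 * XX s r a i b|) with hm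
  have hm0 : ∀ a i b, 0 ≤ m a i b := by
    intro a i b
    have h1 : 0 ≤ min ((-2 * XX s r a i b) ^ 2) (u ^ 2 / 2 * |-2 * XX s r a i b|) :=
      le_min (sq_nonneg _) (by positivity)
    rcases hind01 a b with h | h
    · simp only [hm, h, one_mul]
      exact h1
    · simp only [hm, h, zero_mul]
      exact le_rfl
  have hmR : ∀ a i b, m a i b ≤ Rm a i b := by
    intro a i b
    have h1 := rem (u ^ 2) (yy s r a b) (-2 * XX s r a i b)
    simp only [hm, hind]
    split_ifs with h
    · rw [one_mul]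
      exact h1.2 hr0 h
    · rw [zero_mul]
      exact h1.1
  have hmE : ex2 s r (fun a i b _ => m a i b) ≤ 5 * u ^ 2 / n :=
    (ex2_mono s r hsw hrw fun a i b _ => hmR a i b).trans hRmE
  have hpart1 : ex2 s r (fun a i b _ => ind a b * |-2 * XX s r a i b|) ≤
      √(5 * u ^ 2 / n) + 10 / n := by
    have h1 : ∀ a i b, ind a b * |-2 * XX s r a i b| ≤ √(m a i b) + 2 / u ^ 2 * m a i b := by
      intro a i b
      rcases hind01 a b with h | h
      · simp only [hm, h, one_mul]
        rcases min_choice ((-2 * XX s r a i b) ^ 2) (u ^ 2 / 2 * |-2 * XX s r a i b|) with h2 | h2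
        · rw [h2, Real.sqrt_sq_eq_abs]
          have : 0 ≤ 2 / u ^ 2 * (-2 * XX s r a i b) ^ 2 := by positivity
          linarith
        · rw [h2]
          have h3 : 2 / u ^ 2 * (u ^ 2 / 2 * |-2 * XX s r a i b|) = |-2 * XX s r a i b| := by
            field_simp
          rw [h3]
          have := Real.sqrt_nonneg (u ^ 2 / 2 * |-2 * XX s r a i b|)
          linarith
      · rw [h, zero_mul]
        have h2 := hm0 a i b
        have h3 : 0 ≤ 2 / u ^ 2 * m a i b := by positivity
        have h4 := Real.sqrt_nonneg (m a i b)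
        linarith
    have h2 : ex2 s r (fun a i b _ => √(m a i b)) ≤ √(5 * u ^ 2 / n) := by
      apply Real.le_sqrt_of_sq_le
      refine (ex2_sq s r hsw hrw _).trans ?_
      have h3 : ∀ a i b, √(m a i b) ^ 2 = m a i b := fun a i b => Real.sq_sqrt (hm0 a i b)
      simp only [h3]
      exact hmE
    calc ex2 s r (fun a i b _ => ind a b * |-2 * XX s r a i b|)
        ≤ ex2 s r (fun a i b _ => √(m a i b) + 2 / u ^ 2 * m a i b) :=
          ex2_mono s r hsw hrw fun a i b _ => h1 a i b
      _ = ex2 s r (fun a i b _ => √(m a i b)) + 2 / u ^ 2 * ex2 s r (fun a i b _ => m a i b) := by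
          rw [ex2_add s r (fun a i b _ => √(m a i b)) (fun a i b _ => 2 / u ^ 2 * m a i b),
            ex2_mul_left]
      _ ≤ √(5 * u ^ 2 / n) + 2 / u ^ 2 * (5 * u ^ 2 / n) :=
          add_le_add h2 (mul_le_mul_of_nonneg_left hmE (by positivity))
      _ = √(5 * u ^ 2 / n) + 10 / n := by
          congr 1
          field_simp
          ring
  have hpart2 : ex2 s r (fun a i b _ => (1 - ind a b) * |-2 * XX s r a i b|) ≤
      √(2 * u ^ 2) * √(5 / n) := by
    have h1 := ex2_cs' s r hsw hrw (fun a _ b _ => 1 - ind a b)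
      (fun a i b _ => |-2 * XX s r a i b|)
    refine (le_abs_self _).trans (h1.trans ?_)
    apply mul_le_mul _ _ (Real.sqrt_nonneg _) (Real.sqrt_nonneg _)
    · apply Real.sqrt_le_sqrt
      have h2 : ∀ a b, (1 - ind a b) ^ 2 ≤ 2 / u ^ 2 * (1 - yy s r a b ^ 2) := by
        intro a b
        have hya := hyb _ (hs.tS a) b
        have hya' : |yy s r a b| ≤ 1 := hya
        have h3 : yy s r a b ^ 2 = |yy s r a b| ^ 2 := (sq_abs _).symm
        have h4 := abs_nonneg (yy s r a b)
        simp only [hind]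
        split_ifs with h
        · rw [h3]
          have h5 : 0 ≤ 1 - |yy s r a b| ^ 2 := by nlinarith
          have : 0 ≤ 2 / u ^ 2 * (1 - |yy s r a b| ^ 2) := by positivity
          linarith
        · push Not at h
          rw [h3, div_mul_eq_mul_div, le_div_iff₀ hr0]
          nlinarith
      calc ex2 s r (fun a _ b _ => (1 - ind a b) ^ 2)
          ≤ ex2 s r (fun a _ b _ => 2 / u ^ 2 * (1 - yy s r a b ^ 2)) :=
            ex2_mono s r hsw hrw fun a _ b _ => h2 a b
        _ = 2 / u ^ 2 * (1 - ex2 s r (fun a _ b _ => yy s r a b ^ 2)) := by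
            rw [ex2_mul_left, ex2_sub s r (fun _ _ _ _ => 1) (fun a _ b _ => yy s r a b ^ 2),
              ex2_const s r hsw hrw]
        _ ≤ 2 / u ^ 2 * u ^ 4 := by
            apply mul_le_mul_of_nonneg_left _ (by positivity)
            linarith
        _ = 2 * u ^ 2 := by
            field_simp
    · apply Real.sqrt_le_sqrt
      have h2 : ∀ a i b, |-2 * XX s r a i b| ^ 2 = 4 * XX s r a i b ^ 2 := by
        intro a i b
        rw [sq_abs]
        ring
      simp only [h2]
      rw [ex2_mul_left]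
      calc 4 * ex2 s r (fun a i b _ => XX s r a i b ^ 2) ≤ 4 * ((1 + η) / n) :=
            mul_le_mul_of_nonneg_left hX2 (by norm_num)
        _ ≤ 5 / n := by
            rw [← mul_div_assoc]
            apply div_le_div_of_nonneg_right _ hnpos.le
            linarith
  -- conclusion
  have hsum : 2 * ex2 s r (fun a i b _ => |XX s r a i b|) =
      ex2 s r (fun a i b _ => ind a b * |-2 * XX s r a i b|) +
      ex2 s r (fun a i b _ => (1 - ind a b) * |-2 * XX s r a i b|) := by
    rw [← ex2_add, ← ex2_mul_left]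
    congr 1
    funext a i b _
    rw [abs_mul, abs_neg, abs_two]
    ring
  have hs1 : √(5 * u ^ 2 / n) ≤ 2.24 * u / √(n : ℝ) := by
    apply Real.sqrt_le_iff.2
    refine ⟨by positivity, ?_⟩
    rw [div_pow, Real.sq_sqrt hnpos.le]
    apply div_le_div_of_nonneg_right _ hnpos.le
    nlinarith
  have hs2 : √(2 * u ^ 2) * √(5 / n) ≤ 3.17 * u / √(n : ℝ) := by
    rw [← Real.sqrt_mul (by positivity)]
    apply Real.sqrt_le_iff.2
    refine ⟨by positivity, ?_⟩
    rw [div_pow, Real.sq_sqrt hnpos.le, ← mul_div_assoc]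
    apply div_le_div_of_nonneg_right _ hnpos.le
    nlinarith
  have hfin : 2.24 * u / √(n : ℝ) + 3.17 * u / √(n : ℝ) ≤ 2 * (3 * u / √(n : ℝ)) := by
    have h1 : 0 ≤ u / √(n : ℝ) := by positivity
    have e1 : 2.24 * u / √(n : ℝ) = 2.24 * (u / √(n : ℝ)) := by ring
    have e2 : 3.17 * u / √(n : ℝ) = 3.17 * (u / √(n : ℝ)) := by ring
    have e3 : 3 * u / √(n : ℝ) = 3 * (u / √(n : ℝ)) := by ring
    rw [e1, e2, e3]
    linarith
  have h10 : (10 : ℝ) / n = 2 * (5 / n) := by ring
  linarith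

end Pool.Agent.PJC.H59
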